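import Mathlib

/-!
A poset with 11 elements none of whose optimum interval partitions has a block `[x, y]` with `x`
minimal and `y` maximal.
-/

set_option autoImplicit false

namespace Pool.Agent.Results.MP_2af528_co.NoMinMax

/-- An interval partition: a family of pairwise disjoint intervals `[x, y]`, `x ≤ y`, whose union
is everything. -/
def IsIntervalPartition {S : Type} [PartialOrder S] (F : Finset (Set S)) : Prop :=
  (∀ B ∈ F, ∃ x y : S, x ≤ y ∧ B = Set.Icc x y) ∧
  (∀ B ∈ F, ∀ C ∈ F, B ≠ C → Disjoint B C) ∧ ∀ z : S, ∃ B ∈ F, z ∈ B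

/-- An interval partition with the minimum number of blocks. -/
def IsOptimum {S : Type} [PartialOrder S] (F : Finset (Set S)) : Prop :=
  IsIntervalPartition F ∧ ∀ G : Finset (Set S), IsIntervalPartition G → F.card ≤ G.card

/-- The relation `≤` of the example. -/
def r (x y : Fin 11) : Prop :=
  x = y ∨ (x = 0 ∧ (y = 2 ∨ y = 3 ∨ y = 4 ∨ y = 8 ∨ y = 9)) ∨
  (x = 1 ∧ (y = 5 ∨ y = 6 ∨ y = 7 ∨ y = 8 ∨ y = 9)) ∨
  ((x = 2 ∨ x = 3 ∨ x = 4) ∧ y = 8) ∨ ((x = 5 ∨ x = 6 ∨ x = 7) ∧ y = 9) ∨ y = 10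

instance : DecidableRel r := fun x y => by unfold r; infer_instance

/-- The 11-element set of the example. -/
def E : Type := Fin 11

instance : Fintype E := inferInstanceAs (Fintype (Fin 11))

instance : DecidableEq E := inferInstanceAs (DecidableEq (Fin 11))

instance : Nonempty E := ⟨(0 : Fin 11)⟩

lemma r_refl : ∀ x : Fin 11, r x x := by decide

lemma r_trans : ∀ x y z : Fin 11, r x y → r y z → r x z := by decide +kernel

lemma r_antisymm : ∀ x y : Fin 11, r x y → r y x → x = y := by decide +kernel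

instance : PartialOrder E where
  le x y := r x y
  le_refl := r_refl
  le_trans := r_trans
  le_antisymm := r_antisymm

instance : DecidableRel (fun x y : E => x ≤ y) := inferInstanceAs (DecidableRel r)

/-- Naming an element of `E`. -/
def el (i : Fin 11) : E := i

lemma mem_Icc (x y z : E) : z ∈ Set.Icc x y ↔ x ≤ z ∧ z ≤ y := Iff.rfl

open Classical in
/-- The partition into three intervals. -/
lemma three : ∃ G : Finset (Set E), IsIntervalPartition G ∧ G.card ≤ 3 := by
  refine ⟨{Set.Icc (el 0) (el 8), Set.Icc (el 1) (el 9), Set.Icc (el 10) (el 10)}, ⟨?_, ?_, ?_⟩,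
    Finset.card_le_three⟩
  · intro B hB
    simp only [Finset.mem_insert, Finset.mem_singleton] at hB
    rcases hB with rfl | rfl | rfl
    · exact ⟨el 0, el 8, by decide, rfl⟩
    · exact ⟨el 1, el 9, by decide, rfl⟩
    · exact ⟨el 10, el 10, by decide, rfl⟩
  · have d1 : ∀ z : E, ¬ ((el 0 ≤ z ∧ z ≤ el 8) ∧ (el 1 ≤ z ∧ z ≤ el 9)) := by decide
    have d2 : ∀ z : E, ¬ ((el 0 ≤ z ∧ z ≤ el 8) ∧ (el 10 ≤ z ∧ z ≤ el 10)) := by decide
    have d3 : ∀ z : E, ¬ ((el 1 ≤ z ∧ z ≤ el 9) ∧ (el 10 ≤ z ∧ z ≤ el 10)) := by decide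
    intro B hB C hC hne
    rw [Set.disjoint_left]
    simp only [Finset.mem_insert, Finset.mem_singleton] at hB hC
    rcases hB with rfl | rfl | rfl <;> rcases hC with rfl | rfl | rfl <;>
      first
      | exact absurd rfl hne
      | (intro z h1 h2
         rw [mem_Icc] at h1 h2
         first
         | exact d1 z ⟨h1, h2⟩
         | exact d1 z ⟨h2, h1⟩
         | exact d2 z ⟨h1, h2⟩
         | exact d2 z ⟨h2, h1⟩
         | exact d3 z ⟨h1, h2⟩
         | exact d3 z ⟨h2, h1⟩)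
  · have d : ∀ z : E, (el 0 ≤ z ∧ z ≤ el 8) ∨ (el 1 ≤ z ∧ z ≤ el 9) ∨ (el 10 ≤ z ∧ z ≤ el 10) := by
      decide
    intro z
    rcases d z with h | h | h
    · exact ⟨Set.Icc (el 0) (el 8), by simp, h⟩
    · exact ⟨Set.Icc (el 1) (el 9), by simp, h⟩
    · exact ⟨Set.Icc (el 10) (el 10), by simp, h⟩

open Classical in
/-- If three elements outside a block `T` of a partition `F` into at most three intervals are such
that every interval containing two of them contains an element of `T`, we get a contradiction. -/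
lemma four {F : Finset (Set E)} (hF : IsIntervalPartition F) (hc : F.card ≤ 3) {T : Set E}
    (hT : T ∈ F) (b₁ b₂ b₃ : E) (h1 : b₁ ∉ T) (h2 : b₂ ∉ T) (h3 : b₃ ∉ T)
    (h12 : ∀ x y : E, b₁ ∈ Set.Icc x y → b₂ ∈ Set.Icc x y → ∃ z ∈ T, z ∈ Set.Icc x y)
    (h13 : ∀ x y : E, b₁ ∈ Set.Icc x y → b₃ ∈ Set.Icc x y → ∃ z ∈ T, z ∈ Set.Icc x y)
    (h23 : ∀ x y : E, b₂ ∈ Set.Icc x y → b₃ ∈ Set.Icc x y → ∃ z ∈ T, z ∈ Set.Icc x y) :
    False := by
  obtain ⟨hI, hD, hU⟩ := hF
  obtain ⟨B₁, hB₁, hb₁⟩ := hU b₁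
  obtain ⟨B₂, hB₂, hb₂⟩ := hU b₂
  obtain ⟨B₃, hB₃, hb₃⟩ := hU b₃
  have key : ∀ b b' : E, b ∉ T →
      (∀ x y : E, b ∈ Set.Icc x y → b' ∈ Set.Icc x y → ∃ z ∈ T, z ∈ Set.Icc x y) →
      ∀ B ∈ F, b ∈ B → b' ∉ B := by
    intro b b' hb h B hB hbB hbB'
    obtain ⟨x, y, _, rfl⟩ := hI B hB
    obtain ⟨z, hz1, hz2⟩ := h x y hbB hbB'
    have hne : Set.Icc x y ≠ T := by
      rintro h
      rw [h] at hbB
      exact hb hbB
    exact Set.disjoint_left.1 (hD _ hB _ hT hne) hz2 hz1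
  have n12 : B₁ ≠ B₂ := by
    rintro rfl
    exact key b₁ b₂ h1 h12 B₁ hB₁ hb₁ hb₂
  have n13 : B₁ ≠ B₃ := by
    rintro rfl
    exact key b₁ b₃ h1 h13 B₁ hB₁ hb₁ hb₃
  have n23 : B₂ ≠ B₃ := by
    rintro rfl
    exact key b₂ b₃ h2 h23 B₂ hB₂ hb₂ hb₃
  have m1 : B₁ ≠ T := by
    rintro rfl
    exact h1 hb₁
  have m2 : B₂ ≠ T := by
    rintro rfl
    exact h2 hb₂
  have m3 : B₃ ≠ T := by
    rintro rfl
    exact h3 hb₃
  have hsub : ({B₁, B₂, B₃, T} : Finset (Set E)) ⊆ F := by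
    intro B hB
    simp only [Finset.mem_insert, Finset.mem_singleton] at hB
    rcases hB with rfl | rfl | rfl | rfl <;> assumption
  have hcard : ({B₁, B₂, B₃, T} : Finset (Set E)).card = 4 := by
    rw [Finset.card_insert_of_notMem, Finset.card_insert_of_notMem,
      Finset.card_insert_of_notMem, Finset.card_singleton]
    · simpa using m3
    · simp only [Finset.mem_insert, Finset.mem_singleton]
      tauto
    · simp only [Finset.mem_insert, Finset.mem_singleton]
      tauto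
  have := Finset.card_le_card hsub
  omega

/-- Not every finite nonempty poset has an optimum interval partition with a block `[x, y]` where
`x` is minimal and `y` is maximal. -/
theorem result : ¬ ∀ (S : Type) [Fintype S] [Nonempty S] [PartialOrder S],
    ∃ F : Finset (Set S), IsOptimum F ∧
      ∃ x y : S, x ≤ y ∧ IsMin x ∧ IsMax y ∧ Set.Icc x y ∈ F := by
  intro h
  obtain ⟨F, ⟨hF, hopt⟩, x, y, hxy, hx, hy, hmem⟩ := h E
  obtain ⟨G, hG, hG3⟩ := three
  have hc : F.card ≤ 3 := (hopt G hG).trans hG3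
  have hy' : y = el 10 := by
    have h1 : y ≤ el 10 := (by decide : ∀ y : E, y ≤ el 10) y
    exact le_antisymm h1 (hy h1)
  subst hy'
  have hx' : x = el 0 ∨ x = el 1 := by
    have h2 : ∀ x : E, x = el 0 ∨ x = el 1 ∨ (el 0 ≤ x ∧ x ≠ el 0) ∨ (el 1 ≤ x ∧ x ≠ el 1) := by
      decide
    rcases h2 x with h | h | h | h
    · exact Or.inl h
    · exact Or.inr h
    · exact absurd (le_antisymm (hx h.1) h.1) h.2
    · exact absurd (le_antisymm (hx h.1) h.1) h.2
  rcases hx' with rfl | rfl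
  · refine four hF hc hmem (el 5) (el 6) (el 7) ?_ ?_ ?_ ?_ ?_ ?_
    · rw [mem_Icc]; decide
    · rw [mem_Icc]; decide
    · rw [mem_Icc]; decide
    · intro x y h1 h2
      rw [mem_Icc] at h1 h2
      refine ⟨el 9, by rw [mem_Icc]; decide, ?_⟩
      rw [mem_Icc]
      revert x y
      decide +kernel
    · intro x y h1 h2
      rw [mem_Icc] at h1 h2
      refine ⟨el 9, by rw [mem_Icc]; decide, ?_⟩
      rw [mem_Icc]
      revert x y
      decide +kernel
    · intro x y h1 h2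
      rw [mem_Icc] at h1 h2
      refine ⟨el 9, by rw [mem_Icc]; decide, ?_⟩
      rw [mem_Icc]
      revert x y
      decide +kernel
  · refine four hF hc hmem (el 2) (el 3) (el 4) ?_ ?_ ?_ ?_ ?_ ?_
    · rw [mem_Icc]; decide
    · rw [mem_Icc]; decide
    · rw [mem_Icc]; decide
    · intro x y h1 h2
      rw [mem_Icc] at h1 h2
      refine ⟨el 8, by rw [mem_Icc]; decide, ?_⟩
      rw [mem_Icc]
      revert x y
      decide +kernel
    · intro x y h1 h2
      rw [mem_Icc] at h1 h2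
      refine ⟨el 8, by rw [mem_Icc]; decide, ?_⟩
      rw [mem_Icc]
      revert x y
      decide +kernel
    · intro x y h1 h2
      rw [mem_Icc] at h1 h2
      refine ⟨el 8, by rw [mem_Icc]; decide, ?_⟩
      rw [mem_Icc]
      revert x y
      decide +kernel

end Pool.Agent.Results.MP_2af528_co.NoMinMax
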